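import Mathlib

/-!
# Induced poset saturation numbers are not monotone in the dimension

The poset `P` with the seven elements `1, 12, 13, 14, 23, 4, 1234` (subsets of `{1,2,3,4}`, ordered by
inclusion) satisfies `sat*([2]^4, P) = 13` and `sat*([2]^5, P) ≤ 12`.
-/

set_option autoImplicit false

namespace Pool.Agent.Results.MP_8c6834_co.NotMonotone

/-- The hypergrid `[t]^n`, ordered coordinatewise. -/
abbrev Grid (n t : ℕ) : Type := Fin n → Fin t

/-- No induced copy of `P` has its image in `F`. -/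
def InducedFree (P : Type) [PartialOrder P] {n t : ℕ} (F : Set (Grid n t)) : Prop :=
  ¬ ∃ φ : P ↪o Grid n t, ∀ x, φ x ∈ F

/-- `F` is induced `P`-saturated. -/
def Saturated (P : Type) [PartialOrder P] {n t : ℕ} (F : Set (Grid n t)) : Prop :=
  InducedFree P F ∧ ∀ f, f ∉ F → ∃ φ : P ↪o Grid n t, ∀ x, φ x ∈ insert f F

/-- The least size of an induced `P`-saturated family in `[t]^n`. -/
noncomputable def satStar (n t : ℕ) (P : Type) [PartialOrder P] : ℕ :=
  sInf {k | ∃ F : Finset (Grid n t), Saturated P (F : Set (Grid n t)) ∧ F.card = k}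

/-! ### A verified search -/

/-- The order relation of masks. -/
def mle (a b : ℕ) : Bool := Nat.beq (Nat.land a b) a

/-- The elements of `P` as masks. -/
def pel : List ℕ := [1, 8, 9, 6, 3, 5, 15]

/-- `x` is related to the already chosen images `imgs` of `els` as the element `e` to `els`. -/
def compat (e x : ℕ) : List ℕ → List ℕ → Bool
  | f :: els, y :: imgs =>
    (mle e f == mle x y) && (mle f e == mle y x) && compat e x els imgs
  | _, _ => true

/-- Search all images of the elements `els` in `dom`, given the images `imgs` of `done`; check `chk`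
at the leaves. -/
def search (dom : List ℕ) (chk : List ℕ → Bool) : List ℕ → List ℕ → List ℕ → Bool
  | [], _, imgs => chk imgs
  | e :: els, don, imgs =>
    dom.all fun x => !(compat e x don imgs) || search dom chk els (e :: don) (x :: imgs)

lemma compat_map (g : ℕ → ℕ) (e : ℕ) (l : List ℕ)
    (h : ∀ f ∈ l, mle e f = mle (g e) (g f) ∧ mle f e = mle (g f) (g e)) :
    compat e (g e) l (l.map g) = true := by
  induction l with
  | nil => rfl
  | cons f l ih =>
    rw [List.map_cons, compat, ih (fun f' hf' => h f' (List.mem_cons_of_mem _ hf'))]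
    obtain ⟨h1, h2⟩ := h f (List.mem_cons_self)
    rw [h1, h2]
    simp

lemma search_sound (dom : List ℕ) (chk : List ℕ → Bool) (g : ℕ → ℕ) :
    ∀ els don : List ℕ, (∀ e ∈ els, g e ∈ dom) →
      (∀ e ∈ els, ∀ f, (f ∈ els ∨ f ∈ don) → mle e f = mle (g e) (g f) ∧
        mle f e = mle (g f) (g e)) →
      search dom chk els don (don.map g) = true → chk ((els.reverse ++ don).map g) = true := by
  intro els
  induction els with
  | nil =>
    intro don _ _ h
    simpa [search] using h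
  | cons e els ih =>
    intro don hdom hrel h
    rw [search, List.all_eq_true] at h
    have h1 := h (g e) (hdom e List.mem_cons_self)
    rw [compat_map g e don (fun f hf => hrel e List.mem_cons_self f (Or.inr hf))] at h1
    have h2 := ih (e :: don) (fun f hf => hdom f (List.mem_cons_of_mem _ hf))
      (fun f hf f' hf' => hrel f (List.mem_cons_of_mem _ hf) f' (by
        rcases hf' with hf' | hf'
        · exact Or.inl (List.mem_cons_of_mem _ hf')
        · rcases List.mem_cons.mp hf' with rfl | hf'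
          · exact Or.inl List.mem_cons_self
          · exact Or.inr hf'))
      (by simpa using h1)
    rw [List.reverse_cons, List.append_assoc, List.singleton_append]
    exact h2

/-! ### Masks -/

/-- The element of the Boolean lattice with a given mask. -/
def dec (n m : ℕ) : Grid n 2 := fun i => if m.testBit i then 1 else 0

/-- The mask of an element of the Boolean lattice. -/
def enc (n : ℕ) (f : Grid n 2) : ℕ := ∑ i, (f i : ℕ) * 2 ^ (i : ℕ)

lemma dec_enc4 : ∀ f : Grid 4 2, dec 4 (enc 4 f) = f := by decide +kernel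
lemma dec_enc5 : ∀ f : Grid 5 2, dec 5 (enc 5 f) = f := by decide +kernel
lemma enc4_lt : ∀ f : Grid 4 2, enc 4 f ∈ List.range 16 := by decide +kernel
lemma enc5_lt : ∀ f : Grid 5 2, enc 5 f ∈ List.range 32 := by decide +kernel

lemma le4 : ∀ a ∈ List.range 16, ∀ b ∈ List.range 16,
    ((∀ i, dec 4 a i ≤ dec 4 b i) ↔ mle a b = true) := by decide +kernel
lemma le5 : ∀ a ∈ List.range 32, ∀ b ∈ List.range 32,
    ((∀ i, dec 5 a i ≤ dec 5 b i) ↔ mle a b = true) := by decide +kernel

/-- The seven subsets `1, 4, 14, 23, 12, 13, 1234` of `{1, 2, 3, 4}`, ordered by inclusion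
(as masks: `1, 8, 9, 6, 3, 5, 15`). -/
abbrev P : Type := {f : Grid 4 2 // enc 4 f ∈ pel}

/-- The twelve copies of `P` in `[2]^4`. -/
def C12 : List (List ℕ) :=
  [[1, 2, 3, 12, 5, 9, 15], [1, 4, 5, 10, 3, 9, 15], [1, 8, 9, 6, 3, 5, 15],
   [2, 1, 3, 12, 6, 10, 15], [2, 4, 6, 9, 3, 10, 15], [2, 8, 10, 5, 3, 6, 15],
   [4, 1, 5, 10, 6, 12, 15], [4, 2, 6, 9, 5, 12, 15], [4, 8, 12, 3, 5, 6, 15],
   [8, 1, 9, 6, 10, 12, 15], [8, 2, 10, 5, 9, 12, 15], [8, 4, 12, 3, 9, 10, 15]]

/-- The minimal transversals of the twelve copies. -/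
def T52 : List (List ℕ) :=
  [[15], [9, 10, 12], [8, 10, 12], [6, 10, 12], [1, 10, 12], [8, 9, 12], [5, 9, 12], [2, 9, 12],
   [4, 8, 12], [5, 6, 12], [4, 6, 12], [1, 6, 12], [4, 5, 12], [2, 5, 12], [3, 12], [1, 2, 12],
   [8, 9, 10], [4, 9, 10], [3, 9, 10], [2, 8, 10], [3, 6, 10], [2, 6, 10], [1, 6, 10], [5, 10],
   [3, 4, 10], [1, 4, 10], [2, 3, 10], [1, 8, 9], [6, 9], [3, 5, 9], [2, 5, 9], [1, 5, 9],
   [3, 4, 9], [2, 4, 9], [1, 3, 9], [5, 6, 8], [3, 6, 8], [1, 6, 8], [3, 5, 8], [2, 5, 8],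
   [3, 4, 8], [2, 4, 8], [1, 4, 8], [1, 2, 8], [4, 5, 6], [3, 5, 6], [2, 4, 6], [2, 3, 6],
   [1, 4, 5], [1, 3, 5], [1, 2, 4], [1, 2, 3]]

/-- A saturated family in `[2]^5` with twelve members. -/
def F12 : List ℕ := [0, 1, 2, 4, 7, 8, 11, 13, 14, 15, 16, 31]

/-- Copies of `P` which appear when a further set is added to `F12`. -/
def tabs : List (List ℕ) :=
  [[4, 3, 7, 16, 13, 14, 31], [2, 5, 7, 16, 11, 14, 31], [1, 6, 7, 16, 11, 13, 31],
   [2, 9, 11, 16, 7, 14, 31], [1, 10, 11, 16, 7, 13, 31], [1, 12, 13, 16, 7, 11, 31],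
   [1, 16, 17, 14, 7, 11, 31], [2, 16, 18, 13, 7, 11, 31], [1, 16, 19, 14, 7, 11, 31],
   [4, 16, 20, 11, 7, 13, 31], [1, 16, 21, 14, 7, 11, 31], [2, 16, 22, 13, 7, 11, 31],
   [1, 16, 23, 14, 11, 13, 31], [8, 16, 24, 7, 11, 13, 31], [1, 16, 25, 14, 7, 11, 31],
   [2, 16, 26, 13, 7, 11, 31], [1, 16, 27, 14, 7, 13, 31], [4, 16, 28, 11, 7, 13, 31],
   [1, 16, 29, 14, 7, 11, 31], [2, 16, 30, 13, 7, 11, 31]]

/-- The image of the element `e` of `P` under a table. -/
def app (t : List ℕ) (e : ℕ) : ℕ := t.getD (pel.idxOf e) 0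

/-- The table describes an order embedding. -/
def isEmb (t : List ℕ) : Bool :=
  pel.all fun e => pel.all fun f => mle e f == mle (app t e) (app t f)

lemma C12_emb : ∀ t ∈ C12, isEmb t = true ∧ ∀ e ∈ pel, app t e ∈ List.range 16 := by
  decide +kernel
lemma tabs_emb : ∀ t ∈ tabs, isEmb t = true ∧ ∀ e ∈ pel, app t e ∈ List.range 32 := by
  decide +kernel

lemma app_mem : ∀ t ∈ C12 ++ tabs, ∀ e ∈ pel, app t e ∈ t := by decide +kernel

lemma tabs_ok : ∀ m ∈ List.range 32, m ∉ F12 → ∃ t ∈ tabs, ∀ x ∈ t, x = m ∨ x ∈ F12 := by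
  decide +kernel

lemma search5 : search F12 (fun _ => false) pel [] [] = true := by decide +kernel
lemma search4 : search (List.range 16) (fun l => C12.any fun c => c.all fun m => l.contains m)
    pel [] [] = true := by decide +kernel

/-- Decision tree for the transversals. -/
def tree : List ℕ → List ℕ → List ℕ → Bool
  | [], yes, no => (C12.any fun c => c.all fun m => yes.contains m) ||
      (T52.any fun c => c.all fun m => no.contains m)
  | v :: vs, yes, no => ((C12.any fun c => c.all fun m => yes.contains m) ||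
      (T52.any fun c => c.all fun m => no.contains m)) ||
      (tree vs (v :: yes) no && tree vs yes (v :: no))

lemma tree_ok : tree [15, 1, 2, 4, 8, 3, 5, 6, 9, 10, 12] [] [] = true := by decide +kernel

lemma tree_sound (χ : ℕ → Prop) : ∀ vs yes no : List ℕ, (∀ v ∈ yes, χ v) → (∀ v ∈ no, ¬ χ v) →
    tree vs yes no = true → (∃ c ∈ C12, ∀ m ∈ c, χ m) ∨ (∃ c ∈ T52, ∀ m ∈ c, ¬ χ m) := by
  have key : ∀ yes no : List ℕ, (∀ v ∈ yes, χ v) → (∀ v ∈ no, ¬ χ v) →
      ((C12.any fun c => c.all fun m => yes.contains m) ||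
      (T52.any fun c => c.all fun m => no.contains m)) = true →
      (∃ c ∈ C12, ∀ m ∈ c, χ m) ∨ (∃ c ∈ T52, ∀ m ∈ c, ¬ χ m) := by
    intro yes no hy hn h
    rcases Bool.or_eq_true _ _ ▸ h with h | h
    · left
      obtain ⟨c, hc, h⟩ := List.any_eq_true.mp h
      refine ⟨c, hc, fun m hm => hy m ?_⟩
      simpa using List.all_eq_true.mp h m hm
    · right
      obtain ⟨c, hc, h⟩ := List.any_eq_true.mp h
      refine ⟨c, hc, fun m hm => hn m ?_⟩
      simpa using List.all_eq_true.mp h m hm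
  intro vs
  induction vs with
  | nil =>
    intro yes no hy hn h
    exact key yes no hy hn h
  | cons v vs ih =>
    intro yes no hy hn h
    rw [tree] at h
    rcases Bool.or_eq_true _ _ ▸ h with h | h
    · exact key yes no hy hn h
    · rw [Bool.and_eq_true] at h
      by_cases hv : χ v
      · refine ih (v :: yes) no ?_ hn h.1
        intro w hw
        rcases List.mem_cons.mp hw with rfl | hw
        · exact hv
        · exact hy w hw
      · refine ih yes (v :: no) hy ?_ h.2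
        intro w hw
        rcases List.mem_cons.mp hw with rfl | hw
        · exact hv
        · exact hn w hw

lemma T52_meets : ∀ T ∈ T52, ∀ c ∈ C12, ∃ m ∈ T, m ∈ c := by decide +kernel
lemma T52_length : ∀ T ∈ T52, T.length ≤ 3 := by decide +kernel

/-! ### Embeddings from tables and tables from embeddings -/

/-- The order of `P` through masks. -/
lemma P_le (x y : P) : x ≤ y ↔ mle (enc 4 x.1) (enc 4 y.1) = true := by
  have h := le4 (enc 4 x.1) (enc4_lt _) (enc 4 y.1) (enc4_lt _)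
  rw [dec_enc4, dec_enc4] at h
  exact h

/-- The embedding described by a table. -/
lemma exists_emb4 (t : List ℕ) (ht : t ∈ C12) :
    ∃ φ : P ↪o Grid 4 2, ∀ x : P, φ x = dec 4 (app t (enc 4 x.1)) := by
  obtain ⟨h1, h2⟩ := C12_emb t ht
  refine ⟨OrderEmbedding.ofMapLEIff (fun x : P => dec 4 (app t (enc 4 x.1))) ?_, fun x => rfl⟩
  intro x y
  rw [P_le]
  have h := le4 _ (h2 _ x.2) _ (h2 _ y.2)
  have h3 := List.all_eq_true.mp (List.all_eq_true.mp h1 _ x.2) _ y.2
  have h4 : mle (enc 4 x.1) (enc 4 y.1) = mle (app t (enc 4 x.1)) (app t (enc 4 y.1)) := by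
    simpa using h3
  rw [h4]
  exact h

lemma exists_emb5 (t : List ℕ) (ht : t ∈ tabs) :
    ∃ φ : P ↪o Grid 5 2, ∀ x : P, φ x = dec 5 (app t (enc 4 x.1)) := by
  obtain ⟨h1, h2⟩ := tabs_emb t ht
  refine ⟨OrderEmbedding.ofMapLEIff (fun x : P => dec 5 (app t (enc 4 x.1))) ?_, fun x => rfl⟩
  intro x y
  rw [P_le]
  have h := le5 _ (h2 _ x.2) _ (h2 _ y.2)
  have h3 := List.all_eq_true.mp (List.all_eq_true.mp h1 _ x.2) _ y.2
  have h4 : mle (enc 4 x.1) (enc 4 y.1) = mle (app t (enc 4 x.1)) (app t (enc 4 y.1)) := by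
    simpa using h3
  rw [h4]
  exact h

lemma pel_dec : ∀ e ∈ pel, enc 4 (dec 4 e) = e := by decide +kernel
lemma pel_dec_mem : ∀ e ∈ pel, enc 4 (dec 4 e) ∈ pel := by decide +kernel

/-- The images of the elements of `P` under an embedding, as masks. -/
def tab {n : ℕ} (φ : P ↪o Grid n 2) (e : ℕ) : ℕ :=
  if h : e ∈ pel then enc n (φ ⟨dec 4 e, pel_dec_mem e h⟩) else 0

lemma tab_rel4 (φ : P ↪o Grid 4 2) (e f : ℕ) (he : e ∈ pel) (hf : f ∈ pel) :
    mle e f = mle (tab φ e) (tab φ f) := by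
  rw [Bool.eq_iff_iff]
  unfold tab
  rw [dif_pos he, dif_pos hf]
  have h := le4 (enc 4 (φ ⟨dec 4 e, pel_dec_mem e he⟩)) (enc4_lt _)
    (enc 4 (φ ⟨dec 4 f, pel_dec_mem f hf⟩)) (enc4_lt _)
  rw [dec_enc4, dec_enc4] at h
  rw [← h]
  have h2 : (φ ⟨dec 4 e, pel_dec_mem e he⟩ ≤ φ ⟨dec 4 f, pel_dec_mem f hf⟩) ↔ _ :=
    φ.le_iff_le
  have h3 := P_le ⟨dec 4 e, pel_dec_mem e he⟩ ⟨dec 4 f, pel_dec_mem f hf⟩
  rw [pel_dec e he, pel_dec f hf] at h3
  exact (h2.trans h3).symm

lemma tab_rel5 (φ : P ↪o Grid 5 2) (e f : ℕ) (he : e ∈ pel) (hf : f ∈ pel) :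
    mle e f = mle (tab φ e) (tab φ f) := by
  rw [Bool.eq_iff_iff]
  unfold tab
  rw [dif_pos he, dif_pos hf]
  have h := le5 (enc 5 (φ ⟨dec 4 e, pel_dec_mem e he⟩)) (enc5_lt _)
    (enc 5 (φ ⟨dec 4 f, pel_dec_mem f hf⟩)) (enc5_lt _)
  rw [dec_enc5, dec_enc5] at h
  rw [← h]
  have h2 : (φ ⟨dec 4 e, pel_dec_mem e he⟩ ≤ φ ⟨dec 4 f, pel_dec_mem f hf⟩) ↔ _ :=
    φ.le_iff_le
  have h3 := P_le ⟨dec 4 e, pel_dec_mem e he⟩ ⟨dec 4 f, pel_dec_mem f hf⟩
  rw [pel_dec e he, pel_dec f hf] at h3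
  exact (h2.trans h3).symm

/-- Every copy of `P` in `[2]^4` is one of the twelve. -/
lemma copies4 (φ : P ↪o Grid 4 2) : ∃ c ∈ C12, ∀ m ∈ c, ∃ x, φ x = dec 4 m := by
  have h := search_sound (List.range 16)
    (fun l => C12.any fun c => c.all fun m => l.contains m) (tab φ) pel []
    (fun e he => by
      unfold tab
      rw [dif_pos he]
      exact enc4_lt _)
    (fun e he f hf => by
      have hf' : f ∈ pel := by
        rcases hf with hf | hf
        · exact hf
        · simp at hf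
      exact ⟨tab_rel4 φ e f he hf', tab_rel4 φ f e hf' he⟩)
    search4
  obtain ⟨c, hc, h⟩ := List.any_eq_true.mp h
  refine ⟨c, hc, fun m hm => ?_⟩
  have h1 := List.all_eq_true.mp h m hm
  rw [List.contains_iff_mem, List.append_nil] at h1
  obtain ⟨e, he, rfl⟩ := List.mem_map.mp h1
  rw [List.mem_reverse] at he
  refine ⟨⟨dec 4 e, pel_dec_mem e he⟩, ?_⟩
  unfold tab
  rw [dif_pos he, dec_enc4]

/-- The family with twelve members. -/
def Fam : Finset (Grid 5 2) := (F12.map (dec 5)).toFinset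

lemma mem_Fam (f : Grid 5 2) : f ∈ (Fam : Set (Grid 5 2)) ↔ enc 5 f ∈ F12 := by
  have h : ∀ m ∈ F12, enc 5 (dec 5 m) = m := by decide +kernel
  rw [Finset.mem_coe, Fam, List.mem_toFinset, List.mem_map]
  constructor
  · rintro ⟨m, hm, rfl⟩
    rw [h m hm]
    exact hm
  · intro hm
    exact ⟨enc 5 f, hm, dec_enc5 f⟩

lemma Fam_sat : Saturated P (Fam : Set (Grid 5 2)) := by
  constructor
  · rintro ⟨φ, hφ⟩
    have h := search_sound F12 (fun _ => false) (tab φ) pel []
      (fun e he => by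
        unfold tab
        rw [dif_pos he]
        exact (mem_Fam _).mp (hφ _))
      (fun e he f hf => by
        have hf' : f ∈ pel := by
          rcases hf with hf | hf
          · exact hf
          · simp at hf
        exact ⟨tab_rel5 φ e f he hf', tab_rel5 φ f e hf' he⟩)
      search5
    simp at h
  · intro f hf
    rw [mem_Fam] at hf
    obtain ⟨t, ht, h⟩ := tabs_ok (enc 5 f) (enc5_lt f) hf
    obtain ⟨φ, hφ⟩ := exists_emb5 t ht
    refine ⟨φ, fun x => ?_⟩
    rw [hφ]
    have h1 := app_mem t (List.mem_append_right _ ht) _ x.2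
    have h2 : ∀ m ∈ F12, enc 5 (dec 5 m) = m := by decide +kernel
    rcases h _ h1 with h3 | h3
    · left
      rw [h3, dec_enc5]
    · right
      rw [mem_Fam, h2 _ h3]
      exact h3

lemma Fam_card : Fam.card = 12 := by decide +kernel

/-- Every saturated family in `[2]^4` has at least thirteen members. -/
lemma card_ge (F : Finset (Grid 4 2)) (hF : Saturated P (F : Set (Grid 4 2))) : 13 ≤ F.card := by
  obtain ⟨hfree, hsat⟩ := hF
  have h := tree_sound (fun m => dec 4 m ∈ F) _ [] [] (by simp) (by simp) tree_ok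
  rcases h with ⟨c, hc, h⟩ | ⟨T, hT, h⟩
  · exfalso
    apply hfree
    obtain ⟨φ, hφ⟩ := exists_emb4 c hc
    refine ⟨φ, fun x => ?_⟩
    rw [hφ]
    exact h _ (app_mem c (List.mem_append_left _ hc) _ x.2)
  · have hsub : Fᶜ ⊆ (T.map (dec 4)).toFinset := by
      intro f hf
      rw [Finset.mem_compl] at hf
      obtain ⟨φ, hφ⟩ := hsat f hf
      obtain ⟨c, hc, hcφ⟩ := copies4 φ
      obtain ⟨m, hmT, hmc⟩ := T52_meets T hT c hc
      obtain ⟨x, hx⟩ := hcφ m hmc
      have h1 := hφ x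
      rw [hx] at h1
      rcases h1 with h1 | h1
      · rw [← h1, List.mem_toFinset, List.mem_map]
        exact ⟨m, hmT, rfl⟩
      · exact absurd h1 (h m hmT)
    have h1 := Finset.card_le_card hsub
    have h2 : (T.map (dec 4)).toFinset.card ≤ 3 := by
      refine (List.toFinset_card_le _).trans ?_
      rw [List.length_map]
      exact T52_length T hT
    have h3 : Fᶜ.card = 16 - F.card := by
      rw [Finset.card_compl]
      simp
    omega

/-- There is a saturated family in `[2]^4`. -/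
lemma exists_sat4 : ∃ F : Finset (Grid 4 2), Saturated P (F : Set (Grid 4 2)) := by
  refine ⟨Finset.univ.erase (dec 4 15), ?_, ?_⟩
  · rintro ⟨φ, hφ⟩
    obtain ⟨c, hc, h⟩ := copies4 φ
    have h15 : ∀ c ∈ C12, 15 ∈ c := by decide +kernel
    obtain ⟨x, hx⟩ := h 15 (h15 c hc)
    have := hφ x
    rw [hx] at this
    simp at this
  · intro f hf
    refine ⟨OrderEmbedding.subtype _, fun x => ?_⟩
    by_cases hx : (x : Grid 4 2) = f
    · left
      exact hx
    · right
      simp only [Finset.mem_coe, Finset.mem_erase, Finset.mem_univ, and_true, not_not] at hf ⊢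
      rw [← hf]
      exact hx

lemma sat5_le : satStar 5 2 P ≤ 12 := Nat.sInf_le ⟨Fam, Fam_sat, Fam_card⟩

lemma le_sat4 : 13 ≤ satStar 4 2 P := by
  obtain ⟨F, hF⟩ := exists_sat4
  have hne : {k | ∃ F : Finset (Grid 4 2), Saturated P (F : Set (Grid 4 2)) ∧
      F.card = k}.Nonempty := ⟨F.card, F, hF, rfl⟩
  refine le_csInf hne ?_
  rintro k ⟨F', hF', rfl⟩
  exact card_ge F' hF'

lemma card_P : Fintype.card P = 7 := by decide +kernel

/-- Monotonicity fails: there is a seven-element poset `P` with an induced copy in `[2]^4`, whose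
induced saturation number in `[2]^5` is smaller than the one in `[2]^4`: every saturated family in
`[2]^4` has at least `13` members and there is a saturated family with `12` members in `[2]^5`. -/
theorem result : ∃ (P : Type) (_ : PartialOrder P) (_ : Fintype P),
    Fintype.card P = 7 ∧ Nonempty (P ↪o Grid 4 2) ∧
    (∀ F : Finset (Grid 4 2), Saturated P (F : Set (Grid 4 2)) → 13 ≤ F.card) ∧
    (∃ F : Finset (Grid 5 2), Saturated P (F : Set (Grid 5 2)) ∧ F.card = 12) ∧
    satStar 5 2 P < satStar 4 2 P :=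
  ⟨P, inferInstance, inferInstance, card_P, ⟨OrderEmbedding.subtype _⟩, card_ge,
    ⟨Fam, Fam_sat, Fam_card⟩, lt_of_le_of_lt sat5_le (lt_of_lt_of_le (by norm_num) le_sat4)⟩

end Pool.Agent.Results.MP_8c6834_co.NotMonotone
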